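import Pool.Agent.Q119.ST.Main

/-!
MP_5e375b_co: a connected graph with exactly three distinct eigenvalues whose coherent closure has
type `[3 2; 3]` (is a strongly regular design).

The graph has `156 = 60 + 96` vertices and spectrum `80, 8, -4`. Let `O` be a hyperoval of `PG(2,4)`
and `V = F_4³ = F_2⁶`. The 96 vertices are the lines of `AG(3,4)` with direction in `O` (adjacent iff
they meet in one point: the point graph of `GQ(5,3)`). For each of the 15 secants `{i,j}` of `O` the
`F_2`-linear functionals of `V` vanishing on the directions `i`, `j` are three nonzero ones; the 45
functionals are distributed to the 15 synthemes (perfect matchings of `O`) so that each syntheme gets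
one functional of each of its three secants. The 60 other vertices are the 15 synthemes with one of
four even sign patterns (adjacent iff the synthemes are different); such a vertex is adjacent to the
lines on which the functional of the secant through its direction has the right sign. Then
`A² = 4 A + 32 I + 18 β βᵀ` with `β = 2` on the first part and `β = 1` on the second part.
-/

namespace Pool.Agent.Results.MP_5e375b_co.DesignClosure

open Q119.ST

/-- There is a connected graph (on 156 vertices) whose adjacency matrix has exactly three distinct
eigenvalues (`80`, `8`, `-4`) and whose coherent closure has type `[3 2; 3]`: exactly two fibres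
`X₁`, `X₂`, with `3` basis relations in `X₁ × X₁`, `2` in `X₁ × X₂` and `3` in `X₂ × X₂`. -/
theorem result :
    ∃ (G : SimpleGraph (Fin 156)) (_ : DecidableRel G.Adj), G.Connected ∧
      (spectrum ℝ (G.adjMatrix ℝ)).ncard = 3 ∧ spectrum ℝ (G.adjMatrix ℝ) = {80, 8, -4} ∧
      ∃ r : Setoid (Fin 156 × Fin 156), IsCoherentClosure G r ∧ IsStronglyRegularDesign r := by
  refine ⟨Gr, inferInstance, connected, ?_, spec, _, closure, design⟩
  rw [spec, Set.ncard_insert_of_notMem (by norm_num), Set.ncard_insert_of_notMem (by norm_num),
    Set.ncard_singleton]

end Pool.Agent.Results.MP_5e375b_co.DesignClosure
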